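import Pool.Agent.W622.RB.Defs

/-!
# Project RB (owner helper622), part RB-C1: the cellular boundary in degrees one and two
-/

set_option autoImplicit false
set_option linter.unusedSectionVars false

namespace Pool.Agent.W363.RB.C1

open Finsupp Topology
open Pool.Agent.Helper922.HB.Sc (Sing sface sbd supported_map single_mem_supported' sbd_sbd)
open Pool.Agent.H904R2
open Pool.Agent.H904R2.Sph (sbd_single sbd_mem_sup sup_mono sup single_mem_sup)
open Pool.Agent.W622.RB

section

variable {E : Type} [TopologicalSpace E] [T2Space E] [CWComplex (Set.univ : Set E)]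

theorem sC_single (k : ℕ) (e : RelCWComplex.cell (Set.univ : Set E) k) (a : ℤ) :
    sC k (single e a) = single (cellS k e) a := by
  simp [sC]

theorem cellS_mem_skA (k : ℕ) (e : RelCWComplex.cell (Set.univ : Set E) k) :
    cellS k e ∈ skA (X := E) k k := Or.inr ⟨e, rfl⟩

theorem sC_mem_skA (k : ℕ) (c : CC E k) : sC k c ∈ supported ℤ ℤ (skA (X := E) k k) := by
  have hc : c ∈ supported ℤ ℤ (Set.univ : Set (RelCWComplex.cell (Set.univ : Set E) k)) := by simp
  refine supported_map _ (sC k) _ ?_ c hc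
  intro e _
  rw [sC_single]
  exact single_mem_supported' (cellS_mem_skA k e)

/-- the boundary of the singular chain of a cellular chain lies in the lower skeleton -/
theorem sbd_sC_mem (k : ℕ) (c : CC E (k + 1)) :
    sbd E k (sC (k + 1) c) ∈ skC (X := E) (k + 1) k := by
  have hc : c ∈ supported ℤ ℤ (Set.univ : Set (RelCWComplex.cell (Set.univ : Set E) (k + 1))) := by
    simp
  refine supported_map _ ((sbd E k).comp (sC (k + 1))) _ ?_ c hc
  intro e _
  rw [LinearMap.comp_apply, sC_single, sbd_single]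
  apply Submodule.sum_mem
  intro i _
  apply Submodule.smul_mem
  exact single_mem_supported' (sig_face (e := e) rfl i)

/-- the barycentre -/
noncomputable def bary (k : ℕ) : stdSimplex ℝ (Fin (k + 1)) :=
  ⟨fun _ => 1 / ((k : ℝ) + 1), by
    constructor
    · intro i; positivity
    · simp only [Finset.sum_const, Finset.card_univ, Fintype.card_fin, nsmul_eq_mul]
      push_cast
      field_simp⟩

theorem bary_ne (k : ℕ) (i : Fin (k + 1)) : (bary k).1 i ≠ 0 := by
  show 1 / ((k : ℝ) + 1) ≠ 0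
  positivity

theorem cellS_injective (k : ℕ) :
    Function.Injective (cellS (X := E) k) := by
  intro e e' h
  by_contra hne
  have hne' : (⟨k, e⟩ : Σ n, RelCWComplex.cell (Set.univ : Set E) n) ≠ ⟨k, e'⟩ := by
    intro heq
    exact hne (eq_of_heq (Sigma.mk.inj_iff.mp heq).2)
  have h1 := cellS_int k e (bary k) (bary_ne k)
  have h2 := cellS_int k e' (bary k) (bary_ne k)
  rw [← h] at h2
  exact Set.disjoint_left.mp (RelCWComplex.disjoint_openCell_of_ne hne') h1 h2

theorem cellS_not_sk (k : ℕ) (e : RelCWComplex.cell (Set.univ : Set E) k) :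
    ¬ Set.range (cellS k e) ⊆ sk E k := by
  intro h
  exact Set.disjoint_left.mp (disj_sk k e) (h ⟨bary k, rfl⟩) (cellS_int k e (bary k) (bary_ne k))

theorem sC_eq_zero {k : ℕ} {b : CC E k} (h : sC k b ∈ skC (X := E) k k) : b = 0 := by
  ext e
  by_contra hne
  have h1 : sC k b (cellS k e) = b e := by
    show Finsupp.mapDomain (cellS k) b (cellS k e) = b e
    exact Finsupp.mapDomain_apply (cellS_injective k) b e
  have h2 : cellS k e ∈ (sC k b).support := by
    rw [Finsupp.mem_support_iff, h1]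
    exact hne
  exact cellS_not_sk k e (h h2)

theorem uniq {k : ℕ} {b : CC E k} {w : Ch E (k + 1)} (hw : w ∈ skC (X := E) (k + 1) (k + 1))
    (h : sC k b = sbd E k w) : b = 0 := by
  obtain ⟨y, -, hy⟩ := (skel_acyc (X := E) k).2 k w hw (by rw [← h]; exact sC_mem_skA k b)
  have hy' : w - sbd E (k + 1) y ∈ sup (sk E k) (k + 1) := by
    refine Finsupp.supported_mono ?_ hy
    rintro σ (h1 | ⟨e, h1⟩)
    · exact h1
    · have := (Sigma.mk.inj_iff.mp h1).1
      omega
  have h2 : sbd E k (w - sbd E (k + 1) y) ∈ sup (sk E k) k := sbd_mem_sup hy'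
  rw [map_sub, sbd_sbd, sub_zero, ← h] at h2
  exact sC_eq_zero h2

theorem sk_zero : sk E 0 = ∅ := by
  rw [Set.eq_empty_iff_forall_notMem]
  intro x hx
  have h2 : x ∈ RelCWComplex.skeletonLT (Set.univ : Set E) ((0 : ℕ) : ℕ∞) := hx
  rw [CWComplex.mem_skeletonLT_iff] at h2
  obtain ⟨m, hm, -⟩ := h2
  simp at hm

theorem range_not_sk_zero {m : ℕ} (σ : Sing E m) : ¬ Set.range σ ⊆ sk E 0 := by
  intro h
  have := h ⟨bary m, rfl⟩
  rw [sk_zero] at this
  exact this

/-- every chain of `skA k k` is the sum of a chain of `sk k` and a cellular chain -/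
theorem split_skA (k : ℕ) (z : Ch E k) (hz : z ∈ supported ℤ ℤ (skA (X := E) k k)) :
    ∃ a ∈ skC (X := E) k k, ∃ b : CC E k, z = a + sC k b := by
  have : z ∈ skC (X := E) k k ⊔ LinearMap.range (sC (E := E) k) := by
    refine supported_map _ LinearMap.id _ ?_ z hz
    rintro σ (h | ⟨e, h⟩)
    · exact Submodule.mem_sup_left (single_mem_supported' h)
    · apply Submodule.mem_sup_right
      have h1 : σ = cellS k e := eq_of_heq (Sigma.mk.inj_iff.mp h).2
      refine ⟨single e 1, ?_⟩
      rw [sC_single, h1]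
      rfl
  rw [Submodule.mem_sup] at this
  obtain ⟨a, ha, _, ⟨b, rfl⟩, h⟩ := this
  exact ⟨a, ha, b, h.symm⟩

theorem single_simplex_zero (s t : stdSimplex ℝ (Fin (0 + 1))) : s = t := by
  apply Subtype.ext
  funext i
  have hi : i = (0 : Fin 1) := @Subsingleton.elim (Fin 1) _ _ _
  have hs : ∑ j : Fin 1, s.1 j = 1 := s.2.2
  have ht : ∑ j : Fin 1, t.1 j = 1 := t.2.2
  rw [Fin.sum_univ_one] at hs ht
  rw [hi]
  exact hs.trans ht.symm

theorem zero_simplex_mem (σ : Sing E 0) (h : Set.range σ ⊆ sk E 1) : σ ∈ skA (X := E) 0 0 := by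
  right
  have h2 : σ (bary 0) ∈ RelCWComplex.skeletonLT (Set.univ : Set E) ((1 : ℕ) : ℕ∞) :=
    h ⟨bary 0, rfl⟩
  rw [CWComplex.mem_skeletonLT_iff] at h2
  obtain ⟨m, hm, e, he⟩ := h2
  have hm' : m = 0 := by
    have : m < 1 := by exact_mod_cast hm
    omega
  subst hm'
  refine ⟨e, ?_⟩
  congr 1
  ext t
  rw [single_simplex_zero t (bary 0)]
  have h3 : σ (bary 0) ∈ Set.range (cellS 0 e) := by
    rw [range_cellS]
    exact RelCWComplex.openCell_subset_closedCell 0 e he
  obtain ⟨t', ht'⟩ := h3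
  rw [← ht', single_simplex_zero t' (bary 0)]

theorem skA_zero_one (z : Ch E 1) (hz : z ∈ supported ℤ ℤ (skA (X := E) 0 1)) : z = 0 := by
  have h : skA (X := E) 0 1 = ∅ := by
    rw [Set.eq_empty_iff_forall_notMem]
    rintro σ (h | ⟨e, h⟩)
    · exact range_not_sk_zero σ h
    · have := (Sigma.mk.inj_iff.mp h).1
      omega
  rw [h, Finsupp.supported_empty] at hz
  simpa using hz

theorem skC_zero {m : ℕ} (z : Ch E m) (hz : z ∈ skC (X := E) 0 m) : z = 0 := by
  have h : {σ : Sing E m | Set.range σ ⊆ sk E 0} = ∅ := by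
    rw [Set.eq_empty_iff_forall_notMem]
    intro σ h
    exact range_not_sk_zero σ h
  unfold skC at hz
  rw [h, Finsupp.supported_empty] at hz
  simpa using hz

/-- one-chains of the discrete `0`-skeleton bound -/
theorem one_chain_bounds (a : Ch E 1) (ha : a ∈ skC (X := E) 1 1) :
    ∃ y ∈ skC (X := E) 1 2, a = sbd E 1 y := by
  have h1 : sbd E 0 a ∈ supported ℤ ℤ (skA (X := E) 0 0) := by
    have h2 : sbd E 0 a ∈ sup (sk E 1) 0 := sbd_mem_sup ha
    exact Finsupp.supported_mono (fun σ hσ => zero_simplex_mem σ hσ) h2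
  obtain ⟨y, hy, hy'⟩ := (skel_acyc (X := E) 0).2 0 a ha h1
  exact ⟨y, hy, sub_eq_zero.mp (skA_zero_one _ hy')⟩

end

/-- RB-C1 -/
theorem main : Pool.Agent.W622.RB.S_c1 := by
  intro E _ _ _ k hk c
  have hz := sbd_sC_mem k c
  refine existsUnique_of_exists_of_unique ?_ ?_
  · rcases Nat.le_one_iff_eq_zero_or_eq_one.mp hk with rfl | rfl
    · obtain ⟨y, hy, hy'⟩ := (skel_acyc (X := E) 0).1 _ hz
      obtain ⟨a, ha, b, hab⟩ := split_skA 0 _ hy'
      rw [skC_zero a ha, zero_add (sC 0 b)] at hab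
      refine ⟨b, y, hy, ?_⟩
      rw [← hab]; abel
    · obtain ⟨y, hy, hy'⟩ := (skel_acyc (X := E) 1).2 0 _ hz (by
        rw [sbd_sbd]; exact Submodule.zero_mem _)
      obtain ⟨a, ha, b, hab⟩ := split_skA 1 _ hy'
      obtain ⟨y', hy1, hy2⟩ := one_chain_bounds a ha
      refine ⟨b, y + y', Submodule.add_mem _ hy ?_, ?_⟩
      · exact sup_mono (sk_mono_succ 1) 2 hy1
      · rw [map_add, ← hy2]
        have : sbd E 1 (sC (1 + 1) c) = sbd E 1 y + (a + sC 1 b) := by rw [← hab]; abel
        rw [this]; abel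
  · rintro b b' ⟨w, hw, h⟩ ⟨w', hw', h'⟩
    have h1 : sC k (b - b') = sbd E k (w' - w) := by
      rw [map_sub, map_sub, ← h, ← h']; abel
    exact sub_eq_zero.mp (uniq (Submodule.sub_mem _ hw' hw) h1)

end Pool.Agent.W363.RB.C1
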