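import Pool.Agent.W363.RB.C1

/-!
# Project RB (owner helper622), part RB-C2: second homology of a 2-complex
-/

set_option autoImplicit false
set_option linter.unusedSectionVars false

namespace Pool.Agent.W363.RB.C2

open Finsupp Topology
open Pool.Agent.Helper922.HB.Sc (Sing sface sbd supported_map single_mem_supported' sbd_sbd)
open Pool.Agent.H904R2
open Pool.Agent.H904R2.Sph (sbd_single sbd_mem_sup sup_mono sup single_mem_sup)
open Pool.Agent.W622.RB
open Pool.Agent.W363.RB.C1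

section

variable {E : Type} [TopologicalSpace E] [T2Space E] [CWComplex (Set.univ : Set E)]

theorem skA_ne {k m : ℕ} (h : m ≠ k) {z : Ch E m}
    (hz : z ∈ supported ℤ ℤ (skA (X := E) k m)) : z ∈ skC (X := E) k m := by
  refine Finsupp.supported_mono ?_ hz
  rintro σ (h1 | ⟨e, h1⟩)
  · exact h1
  · exact absurd (Sigma.mk.inj_iff.mp h1).1 h

theorem skC_sub_skA {k m : ℕ} {z : Ch E m} (hz : z ∈ skC (X := E) k m) :
    z ∈ supported ℤ ℤ (skA (X := E) k m) :=
  Finsupp.supported_mono (fun _ h => Or.inl h) hz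

theorem skC_bd {k m : ℕ} {z : Ch E (m + 1)} (hz : z ∈ skC (X := E) k (m + 1)) :
    sbd E m z ∈ skC (X := E) k m := sbd_mem_sup (O := sk E k) hz

theorem skC_succ {k m : ℕ} {z : Ch E m} (hz : z ∈ skC (X := E) k m) :
    z ∈ skC (X := E) (k + 1) m := sup_mono (sk_mono_succ k) m hz

theorem sC_mem_succ (k : ℕ) (c : CC E k) : sC k c ∈ skC (X := E) (k + 1) k := by
  have hc : c ∈ supported ℤ ℤ (Set.univ : Set (RelCWComplex.cell (Set.univ : Set E) k)) := by simp
  refine supported_map _ (sC k) _ ?_ c hc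
  intro e _
  rw [sC_single]
  refine single_mem_supported' ?_
  show Set.range (cellS k e) ⊆ sk E (k + 1)
  rw [range_cellS]
  exact closedCell_sub k e

theorem sk_univ (hd : Dim2 E) : sk E 3 = Set.univ := by
  rw [Set.eq_univ_iff_forall]
  intro x
  have h1 : x ∈ (Set.univ : Set E) := trivial
  rw [← CWComplex.iUnion_openCell_eq_complex (C := (Set.univ : Set E))] at h1
  obtain ⟨n, e, he⟩ : ∃ (n : ℕ) (e : RelCWComplex.cell (Set.univ : Set E) n),
      x ∈ RelCWComplex.openCell n e := by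
    simpa using h1
  have hn : n < 3 := by
    by_contra hcon
    exact (hd n (by omega)).false e
  have h2 : x ∈ RelCWComplex.skeletonLT (Set.univ : Set E) ((3 : ℕ) : ℕ∞) := by
    rw [CWComplex.mem_skeletonLT_iff]
    exact ⟨n, by exact_mod_cast hn, e, he⟩
  exact h2

theorem mem_skC_three (hd : Dim2 E) {m : ℕ} (z : Ch E m) : z ∈ skC (X := E) 3 m := by
  have : z ∈ supported ℤ ℤ (Set.univ : Set (Sing E m)) := by simp
  refine Finsupp.supported_mono ?_ this
  intro σ _
  show Set.range σ ⊆ sk E 3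
  rw [sk_univ hd]
  exact Set.subset_univ _

theorem two_cycle_sk2 {w : Ch E 2} (hw : w ∈ skC (X := E) 2 2) (h : sbd E 1 w = 0) :
    ∃ y : Ch E 3, sbd E 2 y = w := by
  obtain ⟨y1, hy1, h1⟩ := (skel_acyc (X := E) 1).2 1 w hw (by rw [h]; exact Submodule.zero_mem _)
  have h1' := skA_ne (by norm_num) h1
  obtain ⟨y2, hy2, h2⟩ := (skel_acyc (X := E) 0).2 1 _ h1' (by
    rw [map_sub, sbd_sbd, h, sub_zero]; exact Submodule.zero_mem _)
  have h3 := skC_zero _ (skA_ne (by norm_num) h2)
  refine ⟨y1 + y2, ?_⟩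
  rw [map_add]
  have := sub_eq_zero.mp h3
  rw [← this]; abel

theorem main' : Pool.Agent.W622.RB.S_c2 := by
  intro E _ _ _ hd
  constructor
  · rintro hH c ⟨w, hw, h⟩
    rw [map_zero, sub_zero] at h
    have h1 : sbd E 1 (sC 2 c - w) = 0 := by rw [map_sub, sub_eq_zero]; exact h
    obtain ⟨u, hu⟩ := hH _ h1
    have h2 : sbd E 2 u ∈ supported ℤ ℤ (skA (X := E) 2 2) := by
      rw [hu]
      exact Submodule.sub_mem _ (sC_mem_skA 2 c) (skC_sub_skA hw)
    obtain ⟨y, -, hy⟩ := (skel_acyc (X := E) 2).2 2 u (mem_skC_three hd u) h2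
    have h3 := skC_bd (skA_ne (by norm_num) hy)
    rw [map_sub, sbd_sbd, sub_zero, hu] at h3
    have h4 : sC 2 c ∈ skC (X := E) 2 2 := by
      have := Submodule.add_mem _ h3 hw
      rwa [sub_add_cancel] at this
    exact sC_eq_zero h4
  · intro hinj z hz
    obtain ⟨y, -, hy⟩ := (skel_acyc (X := E) 2).2 1 z (mem_skC_three hd z) (by
      rw [hz]; exact Submodule.zero_mem _)
    obtain ⟨w, hw, c, hc⟩ := split_skA 2 _ hy
    have h1 : sbd E 1 w + sbd E 1 (sC 2 c) = 0 := by
      rw [← map_add, ← hc, map_sub, sbd_sbd, hz, sub_zero]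
    have h2 : c = 0 := by
      apply hinj
      refine ⟨-w, Submodule.neg_mem _ hw, ?_⟩
      rw [map_zero, sub_zero, map_neg]
      exact eq_neg_of_add_eq_zero_right h1
    rw [h2, map_zero, add_zero] at hc
    rw [h2, map_zero, map_zero, add_zero] at h1
    obtain ⟨y', hy'⟩ := two_cycle_sk2 hw h1
    refine ⟨y + y', ?_⟩
    rw [map_add, hy', ← hc]; abel

theorem main : Pool.Agent.W622.RB.S_c1 → Pool.Agent.W622.RB.S_c2 := fun _ => main'

end

end Pool.Agent.W363.RB.C2
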