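import Pool.Agent.W363.RB.C2

/-!
# Project RB (owner helper622), part RB-C3: first homology of a 2-complex
-/

set_option autoImplicit false
set_option linter.unusedSectionVars false

namespace Pool.Agent.W363.RB.C3

open Finsupp Topology
open Pool.Agent.Helper922.HB.Sc (Sing sface sbd supported_map single_mem_supported' sbd_sbd)
open Pool.Agent.H904R2
open Pool.Agent.W622.RB
open Pool.Agent.W363.RB.C1
open Pool.Agent.W363.RB.C2

section

variable {E : Type} [TopologicalSpace E] [T2Space E] [CWComplex (Set.univ : Set E)]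

theorem sbd_sk1 {w : Ch E 1} (hw : w ∈ skC (X := E) 1 1) : sbd E 0 w = 0 := by
  obtain ⟨y, -, hy⟩ := one_chain_bounds w hw
  rw [hy, sbd_sbd]

/-- a one-chain whose boundary consists of vertices is homologous to a cellular chain -/
theorem one_chain_cellular (hd : Dim2 E) (z : Ch E 1)
    (hz2 : sbd E 0 z ∈ supported ℤ ℤ (skA (X := E) 2 0))
    (hz1 : sbd E 0 z ∈ supported ℤ ℤ (skA (X := E) 1 0)) :
    ∃ (u : Ch E 2) (b : CC E 1), z = sbd E 1 u + sC 1 b := by
  obtain ⟨y, -, hy⟩ := (skel_acyc (X := E) 2).2 0 z (mem_skC_three hd z) hz2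
  have hy' := skA_ne (by norm_num) hy
  obtain ⟨y1, -, hy1⟩ := (skel_acyc (X := E) 1).2 0 _ hy' (by
    rw [map_sub, sbd_sbd, sub_zero]; exact hz1)
  obtain ⟨a, ha, b, hab⟩ := split_skA 1 _ hy1
  obtain ⟨y2, -, hy2⟩ := one_chain_bounds a ha
  refine ⟨y + y1 + y2, b, ?_⟩
  rw [map_add, map_add, ← hy2]
  have : z = sbd E 1 y + (sbd E 1 y1 + (a + sC 1 b)) := by rw [← hab]; abel
  rw [this]; abel

theorem main' : Pool.Agent.W622.RB.S_c3 := by
  intro E _ _ _ hd
  constructor
  · rintro hH b ⟨w, hw, h⟩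
    rw [map_zero, sub_zero, sbd_sk1 hw] at h
    obtain ⟨u, hu⟩ := hH _ h
    obtain ⟨y, -, hy⟩ := (skel_acyc (X := E) 2).2 1 u (mem_skC_three hd u) (by
      rw [hu]; exact skC_sub_skA (sC_mem_succ 1 b))
    obtain ⟨w', hw', c, hc⟩ := split_skA 2 _ hy
    refine ⟨c, -w', Submodule.neg_mem _ hw', ?_⟩
    have h1 : sC 1 b = sbd E 1 w' + sbd E 1 (sC 2 c) := by
      rw [← map_add, ← hc, map_sub, sbd_sbd, sub_zero, hu]
    rw [map_neg, h1]; abel
  · intro hex z hz
    obtain ⟨u, b, hb⟩ := one_chain_cellular hd z (by rw [hz]; exact Submodule.zero_mem _)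
      (by rw [hz]; exact Submodule.zero_mem _)
    have h1 : sbd E 0 (sC 1 b) = 0 := by
      have := congrArg (sbd E 0) hb
      rw [hz, map_add, sbd_sbd, zero_add] at this
      exact this.symm
    obtain ⟨c, w, -, hc⟩ := hex b ⟨0, Submodule.zero_mem _, by
      rw [map_zero, map_zero, sub_zero]; exact h1⟩
    refine ⟨u + sC 2 c - w, ?_⟩
    rw [map_sub, map_add, ← hc, hb]; abel

theorem main : Pool.Agent.W622.RB.S_c1 → Pool.Agent.W622.RB.S_c3 := fun _ => main'

end

end Pool.Agent.W363.RB.C3
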