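import Pool.Agent.W363.RB.C3

/-!
# Project RB (owner helper622), part RB-C4: augmentation, connectedness, boundary of a boundary
-/

set_option autoImplicit false
set_option linter.unusedSectionVars false

namespace Pool.Agent.W363.RB.C4

open Finsupp Topology
open Pool.Agent.Helper922.HB.Sc (Sing sface sbd supported_map single_mem_supported' sbd_sbd)
open Pool.Agent.H904R2
open Pool.Agent.H904R2.Sph (sbd_single cs aug_single aug_sbd)
open Pool.Agent.W622.RB
open Pool.Agent.W363.RB.C1
open Pool.Agent.W363.RB.C2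
open Pool.Agent.W363.RB.C3

section path

variable {E : Type} [TopologicalSpace E]

/-- the 1-simplex of a path -/
noncomputable def pathS {x y : E} (γ : Path x y) : Sing E 1 :=
  ⟨fun t => γ ⟨t.1 1, t.2.1 1, by
    have h := t.2.2
    rw [Fin.sum_univ_two] at h
    have h0 := t.2.1 0
    linarith⟩, by
    refine γ.continuous.comp ?_
    exact Continuous.subtype_mk ((continuous_apply (1 : Fin 2)).comp continuous_subtype_val) _⟩

theorem simplex_zero_val (t : stdSimplex ℝ (Fin (0 + 1))) : t.1 0 = 1 := by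
  have ht : ∑ j : Fin 1, t.1 j = 1 := t.2.2
  rw [Fin.sum_univ_one] at ht
  exact ht

theorem face_pathS_zero {x y : E} (γ : Path x y) : sface 0 0 (pathS γ) = cs y 0 := by
  ext t
  show γ ⟨(stdSimplex.map (0 : Fin 2).succAbove t).1 1, _⟩ = y
  have h1 : (stdSimplex.map (0 : Fin 2).succAbove t).1 1 = 1 := by
    change (FunOnFinite.linearMap ℝ ℝ (0 : Fin 2).succAbove t.1) 1 = 1
    rw [FunOnFinite.linearMap_apply_apply]
    rw [show (Finset.univ.filter fun j : Fin 1 => (0 : Fin 2).succAbove j = 1) = {0} by decide]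
    rw [Finset.sum_singleton]
    exact simplex_zero_val t
  simp only [h1]
  exact γ.target

theorem face_pathS_one {x y : E} (γ : Path x y) : sface 0 1 (pathS γ) = cs x 0 := by
  ext t
  show γ ⟨(stdSimplex.map (1 : Fin 2).succAbove t).1 1, _⟩ = x
  have h1 : (stdSimplex.map (1 : Fin 2).succAbove t).1 1 = 0 := by
    change (FunOnFinite.linearMap ℝ ℝ (1 : Fin 2).succAbove t.1) 1 = 0
    rw [FunOnFinite.linearMap_apply_apply]
    rw [show (Finset.univ.filter fun j : Fin 1 => (1 : Fin 2).succAbove j = 1) = ∅ by decide]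
    rw [Finset.sum_empty]
  simp only [h1]
  exact γ.source

theorem sbd_pathS {x y : E} (γ : Path x y) :
    sbd E 0 (single (pathS γ) 1) = single (cs y 0) 1 - single (cs x 0) 1 := by
  rw [sbd_single, Fin.sum_univ_two, face_pathS_zero, face_pathS_one]
  simp [sub_eq_add_neg]

theorem cs_of (σ : Sing E 0) : σ = cs (σ (bary 0)) 0 := by
  ext t
  rw [single_simplex_zero t (bary 0)]
  rfl

/-- in a path connected space every 0-chain of augmentation zero bounds -/
theorem zero_chain_bounds [PathConnectedSpace E] (z : Ch E 0) (hz : Sph.aug E 0 z = 0) :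
    ∃ y : Ch E 1, sbd E 0 y = z := by
  obtain ⟨x⟩ := (inferInstance : PathConnectedSpace E).nonempty
  have key : ((LinearMap.id : Ch E 0 →ₗ[ℤ] Ch E 0) -
      (LinearMap.toSpanSingleton ℤ (Ch E 0) (single (cs x 0) 1)).comp
      (Sph.aug E 0) : Ch E 0 →ₗ[ℤ] Ch E 0) z ∈ LinearMap.range (sbd E 0) := by
    have hz' : z ∈ supported ℤ ℤ (Set.univ : Set (Sing E 0)) := by simp
    refine supported_map _ _ _ ?_ z hz'
    intro σ _
    have γ : Path x (σ (bary 0)) := (PathConnectedSpace.joined x (σ (bary 0))).somePath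
    refine ⟨single (pathS γ) 1, ?_⟩
    rw [sbd_pathS, ← cs_of, LinearMap.sub_apply, LinearMap.comp_apply, aug_single,
      LinearMap.toSpanSingleton_apply, one_smul]
    rfl
  rw [LinearMap.sub_apply, LinearMap.comp_apply, hz, map_zero, sub_zero] at key
  exact key

end path

section

variable {E : Type} [TopologicalSpace E] [T2Space E] [CWComplex (Set.univ : Set E)]

theorem aug_sC (a : CC E 0) : Sph.aug E 0 (sC 0 a) = aug a := by
  have : (Sph.aug E 0).comp (sC 0) =
      Finsupp.linearCombination ℤ (fun _ : RelCWComplex.cell (Set.univ : Set E) 0 => (1 : ℤ)) := by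
    apply Finsupp.lhom_ext'
    intro e
    apply LinearMap.ext_ring
    simp only [LinearMap.comp_apply, lsingle_apply]
    rw [sC_single, aug_single]
    simp
  have h2 := LinearMap.congr_fun this a
  rw [LinearMap.comp_apply] at h2
  rw [h2]
  simp [aug, Finsupp.linearCombination_apply]

theorem main : Pool.Agent.W622.RB.S_c4 := by
  intro E _ _ _ hd hpc
  refine ⟨?_, ?_, ?_⟩
  · intro a ha
    obtain ⟨z, hz⟩ := zero_chain_bounds (sC 0 a) (by rw [aug_sC, ha])
    have h1 : sC 0 a ∈ skC (X := E) 1 0 := sC_mem_succ 0 a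
    obtain ⟨u, b, hb⟩ := one_chain_cellular hd z
      (by rw [hz]; exact skC_sub_skA (skC_succ h1)) (by rw [hz]; exact skC_sub_skA h1)
    refine ⟨b, 0, Submodule.zero_mem _, ?_⟩
    have h2 := congrArg (sbd E 0) hb
    rw [hz, map_add, sbd_sbd, zero_add] at h2
    rw [h2, map_zero, sub_self]
  · rintro b a ⟨w, -, h⟩
    have h1 := congrArg (Sph.aug E 0) h
    rw [map_sub, aug_sbd, aug_sbd, zero_sub, neg_eq_zero, aug_sC] at h1
    exact h1
  · rintro c b ⟨w, -, h⟩
    refine ⟨0, Submodule.zero_mem _, ?_⟩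
    have h1 := congrArg (sbd E 0) h
    rw [map_sub, sbd_sbd, sbd_sbd, zero_sub, neg_eq_zero] at h1
    rw [map_zero, map_zero, sub_zero]
    exact h1

end

end Pool.Agent.W363.RB.C4
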