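import Pool.Agent.W622.RB.Defs

/-!
# Project RB (owner helper622), part RB-SC1: `H_1 = 0` for simply connected spaces
-/

set_option autoImplicit false

namespace Pool.Agent.W363.RB.SC1

open Finsupp Topology
open Pool.Agent.Helper922.HB.Sc (Sing sface sbd supported_map single_mem_supported' sbd_sbd)
open Pool.Agent.H904R2
open Pool.Agent.H904R2.Sph (sbd_single cs sbd_cs)
open Pool.Agent.W622.RB

theorem face_self (n : ℕ) (i : Fin (n + 2)) (t : stdSimplex ℝ (Fin (n + 1))) :
    (stdSimplex.map i.succAbove t).1 i = 0 := by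
  change (FunOnFinite.linearMap ℝ ℝ i.succAbove t.1) i = 0
  rw [FunOnFinite.linearMap_apply_apply]
  apply Finset.sum_eq_zero
  intro j hj
  simp only [Finset.mem_filter] at hj
  exact absurd hj.2 (Fin.succAbove_ne i j)

theorem face_other (n : ℕ) (i : Fin (n + 2)) (t : stdSimplex ℝ (Fin (n + 1))) (k : Fin (n + 1)) :
    (stdSimplex.map i.succAbove t).1 (i.succAbove k) = t.1 k := by
  change (FunOnFinite.linearMap ℝ ℝ i.succAbove t.1) (i.succAbove k) = t.1 k
  rw [FunOnFinite.linearMap_apply_apply]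
  have : (Finset.univ.filter fun j : Fin (n + 1) => i.succAbove j = i.succAbove k) = {k} := by
    ext j
    simp
  rw [this, Finset.sum_singleton]

section

variable {E : Type} [TopologicalSpace E]

/-- projection to the unit interval -/
noncomputable def pr : ℝ → unitInterval := Set.projIcc 0 1 zero_le_one

theorem continuous_pr : Continuous pr := continuous_projIcc

theorem pr_zero : pr 0 = 0 := Set.projIcc_left _
theorem pr_one : pr 1 = 1 := Set.projIcc_right _
theorem pr_of (x : unitInterval) : pr x.1 = x := Set.projIcc_val _ x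

/-- the 1-simplex of a path -/
noncomputable def pS {x y : E} (γ : Path x y) : Sing E 1 :=
  ⟨fun t => γ (pr (t.1 1)), γ.continuous.comp
    (continuous_pr.comp ((continuous_apply (1 : Fin 2)).comp continuous_subtype_val))⟩

/-- the 2-simplex of a function of the three barycentric coordinates -/
noncomputable def tS (F : C(ℝ × ℝ × ℝ, E)) : Sing E 2 :=
  ⟨fun t => F (t.1 0, t.1 1, t.1 2), F.continuous.comp
    (((continuous_apply (0 : Fin 3)).comp continuous_subtype_val).prodMk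
      (((continuous_apply (1 : Fin 3)).comp continuous_subtype_val).prodMk
        ((continuous_apply (2 : Fin 3)).comp continuous_subtype_val)))⟩

theorem tS_face0 (F : C(ℝ × ℝ × ℝ, E)) (t : stdSimplex ℝ (Fin 2)) :
    sface 1 0 (tS F) t = F (0, t.1 0, t.1 1) := by
  show F ((stdSimplex.map (0 : Fin 3).succAbove t).1 0, (stdSimplex.map (0 : Fin 3).succAbove t).1 1,
    (stdSimplex.map (0 : Fin 3).succAbove t).1 2) = _
  have h0 := face_self 1 0 t
  have h1 := face_other 1 0 t 0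
  have h2 := face_other 1 0 t 1
  rw [show (0 : Fin 3).succAbove 0 = 1 by decide] at h1
  rw [show (0 : Fin 3).succAbove 1 = 2 by decide] at h2
  rw [h0, h1, h2]

theorem tS_face1 (F : C(ℝ × ℝ × ℝ, E)) (t : stdSimplex ℝ (Fin 2)) :
    sface 1 1 (tS F) t = F (t.1 0, 0, t.1 1) := by
  show F ((stdSimplex.map (1 : Fin 3).succAbove t).1 0, (stdSimplex.map (1 : Fin 3).succAbove t).1 1,
    (stdSimplex.map (1 : Fin 3).succAbove t).1 2) = _
  have h0 := face_self 1 1 t
  have h1 := face_other 1 1 t 0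
  have h2 := face_other 1 1 t 1
  rw [show (1 : Fin 3).succAbove 0 = 0 by decide] at h1
  rw [show (1 : Fin 3).succAbove 1 = 2 by decide] at h2
  rw [h0, h1, h2]

theorem tS_face2 (F : C(ℝ × ℝ × ℝ, E)) (t : stdSimplex ℝ (Fin 2)) :
    sface 1 2 (tS F) t = F (t.1 0, t.1 1, 0) := by
  show F ((stdSimplex.map (2 : Fin 3).succAbove t).1 0, (stdSimplex.map (2 : Fin 3).succAbove t).1 1,
    (stdSimplex.map (2 : Fin 3).succAbove t).1 2) = _
  have h0 := face_self 1 2 t
  have h1 := face_other 1 2 t 0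
  have h2 := face_other 1 2 t 1
  rw [show (2 : Fin 3).succAbove 0 = 0 by decide] at h1
  rw [show (2 : Fin 3).succAbove 1 = 1 by decide] at h2
  rw [h0, h1, h2]

theorem sbd_two (σ : Sing E 2) : sbd E 1 (single σ 1) =
    single (sface 1 0 σ) 1 - single (sface 1 1 σ) 1 + single (sface 1 2 σ) 1 := by
  rw [sbd_single, Fin.sum_univ_three]
  simp [sub_eq_add_neg]

theorem sum_two (t : stdSimplex ℝ (Fin 2)) : t.1 0 + t.1 1 = 1 := by
  have h : ∑ i : Fin 2, t.1 i = 1 := t.2.2
  rwa [Fin.sum_univ_two] at h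

/-- the boundaries -/
noncomputable abbrev B (E : Type) [TopologicalSpace E] : Submodule ℤ (Ch E 1) :=
  LinearMap.range (sbd E 1)

theorem const_mem (x : E) : single (cs x 1) (1 : ℤ) ∈ B E := by
  refine ⟨single (cs x 2) 1, ?_⟩
  rw [sbd_cs]
  simp

theorem trans_mem {x y z : E} (γ₁ : Path x y) (γ₂ : Path y z) :
    single (pS γ₂) (1 : ℤ) - single (pS (γ₁.trans γ₂)) 1 + single (pS γ₁) 1 ∈ B E := by
  let F : C(ℝ × ℝ × ℝ, E) := ⟨fun p => (γ₁.trans γ₂) (pr (p.2.1 / 2 + p.2.2)),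
    (γ₁.trans γ₂).continuous.comp (continuous_pr.comp (by fun_prop))⟩
  refine ⟨single (tS F) 1, ?_⟩
  rw [sbd_two]
  have e0 : sface 1 0 (tS F) = pS γ₂ := by
    ext t
    rw [tS_face0]
    show (γ₁.trans γ₂) (pr (t.1 0 / 2 + t.1 1)) = γ₂ (pr (t.1 1))
    have hs := sum_two t
    have h0 := t.2.1 0
    have h1 := t.2.1 1
    have hm : t.1 0 / 2 + t.1 1 ∈ Set.Icc (0 : ℝ) 1 := ⟨by linarith, by linarith⟩
    have hm1 : t.1 1 ∈ Set.Icc (0 : ℝ) 1 := ⟨h1, by linarith⟩
    have p0 : pr (t.1 0 / 2 + t.1 1) = ⟨_, hm⟩ := Set.projIcc_of_mem _ hm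
    have p1 : pr (t.1 1) = ⟨_, hm1⟩ := Set.projIcc_of_mem _ hm1
    rw [p0, p1, Path.trans_apply]
    split_ifs with hc
    · have h10 : t.1 1 = 0 := by
        have : t.1 0 / 2 + t.1 1 ≤ 1 / 2 := hc
        linarith
      have h00 : t.1 0 = 1 := by linarith
      have q1 : (⟨t.1 1, hm1⟩ : unitInterval) = 0 := Subtype.ext h10
      rw [q1, γ₂.source]
      have : ∀ h, γ₁ ⟨2 * (t.1 0 / 2 + t.1 1), h⟩ = y := by
        intro h
        have q0 : (⟨2 * (t.1 0 / 2 + t.1 1), h⟩ : unitInterval) = 1 :=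
          Subtype.ext (by show 2 * (t.1 0 / 2 + t.1 1) = 1; rw [h10, h00]; norm_num)
        rw [q0, γ₁.target]
      exact this _
    · congr 1
      apply Subtype.ext
      show 2 * (t.1 0 / 2 + t.1 1) - 1 = t.1 1
      linarith
  have e1 : sface 1 1 (tS F) = pS (γ₁.trans γ₂) := by
    ext t
    rw [tS_face1]
    show (γ₁.trans γ₂) (pr (0 / 2 + t.1 1)) = (γ₁.trans γ₂) (pr (t.1 1))
    rw [zero_div, zero_add]
  have e2 : sface 1 2 (tS F) = pS γ₁ := by
    ext t
    rw [tS_face2]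
    show (γ₁.trans γ₂) (pr (t.1 1 / 2 + 0)) = γ₁ (pr (t.1 1))
    have hs := sum_two t
    have h0 := t.2.1 0
    have h1 := t.2.1 1
    have hm : t.1 1 / 2 + 0 ∈ Set.Icc (0 : ℝ) 1 := ⟨by linarith, by linarith⟩
    have hm1 : t.1 1 ∈ Set.Icc (0 : ℝ) 1 := ⟨h1, by linarith⟩
    have p0 : pr (t.1 1 / 2 + 0) = ⟨_, hm⟩ := Set.projIcc_of_mem _ hm
    have p1 : pr (t.1 1) = ⟨_, hm1⟩ := Set.projIcc_of_mem _ hm1
    rw [p0, p1, Path.trans_apply]
    rw [dif_pos (by show t.1 1 / 2 + 0 ≤ 1 / 2; linarith)]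
    congr 1
    apply Subtype.ext
    show 2 * (t.1 1 / 2 + 0) = t.1 1
    linarith
  rw [e0, e1, e2]

theorem homotopic_mem {x y : E} {γ₁ γ₂ : Path x y} (h : γ₁.Homotopic γ₂) :
    single (pS γ₁) (1 : ℤ) - single (pS γ₂) 1 ∈ B E := by
  obtain ⟨H⟩ := h
  let F1 : C(ℝ × ℝ × ℝ, E) := ⟨fun p => H (pr p.2.2, pr (p.2.1 + p.2.2)),
    H.continuous.comp ((continuous_pr.comp (by fun_prop)).prodMk
      (continuous_pr.comp (by fun_prop)))⟩
  let F2 : C(ℝ × ℝ × ℝ, E) := ⟨fun p => H (pr (p.2.1 + p.2.2), pr p.2.2),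
    H.continuous.comp ((continuous_pr.comp (by fun_prop)).prodMk
      (continuous_pr.comp (by fun_prop)))⟩
  have e : sface 1 1 (tS F1) = sface 1 1 (tS F2) := by
    ext t
    rw [tS_face1, tS_face1]
    show H (pr (t.1 1), pr (0 + t.1 1)) = H (pr (0 + t.1 1), pr (t.1 1))
    rw [zero_add]
  have e0 : sface 1 0 (tS F1) = cs y 1 := by
    ext t
    rw [tS_face0]
    show H (pr (t.1 1), pr (t.1 0 + t.1 1)) = y
    rw [sum_two, pr_one]
    exact H.target _
  have e2 : sface 1 2 (tS F1) = pS γ₁ := by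
    ext t
    rw [tS_face2]
    show H (pr 0, pr (t.1 1 + 0)) = γ₁ (pr (t.1 1))
    rw [pr_zero, add_zero]
    exact H.apply_zero _
  have f0 : sface 1 0 (tS F2) = pS γ₂ := by
    ext t
    rw [tS_face0]
    show H (pr (t.1 0 + t.1 1), pr (t.1 1)) = γ₂ (pr (t.1 1))
    rw [sum_two, pr_one]
    exact H.apply_one _
  have f2 : sface 1 2 (tS F2) = cs x 1 := by
    ext t
    rw [tS_face2]
    show H (pr (t.1 1 + 0), pr 0) = x
    rw [pr_zero]
    exact H.source _
  have h1 : sbd E 1 (single (tS F1) 1) ∈ B E := ⟨_, rfl⟩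
  have h2 : sbd E 1 (single (tS F2) 1) ∈ B E := ⟨_, rfl⟩
  rw [sbd_two, e0, e2, e] at h1
  rw [sbd_two, f0, f2] at h2
  have h3 := Submodule.sub_mem _ h1 h2
  have h4 := Submodule.add_mem _ (Submodule.sub_mem _ h3 (const_mem y)) (const_mem x)
  convert h4 using 1
  abel

/-- the point of the 0-simplex -/
def o1 : stdSimplex ℝ (Fin 1) := ⟨fun _ => 1, fun _ => by norm_num, by simp⟩

/-- the point of the 1-simplex with coordinates `1 - u, u` -/
def seg (u : unitInterval) : stdSimplex ℝ (Fin 2) := ⟨![1 - u.1, u.1], by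
    intro i
    fin_cases i
    · show (0 : ℝ) ≤ 1 - u.1
      linarith [u.2.2]
    · exact u.2.1, by
    rw [Fin.sum_univ_two]
    show 1 - u.1 + u.1 = 1
    ring⟩

theorem continuous_seg : Continuous seg := by
  refine Continuous.subtype_mk ?_ _
  refine continuous_pi fun i => ?_
  fin_cases i
  · show Continuous fun u : unitInterval => 1 - u.1
    fun_prop
  · show Continuous fun u : unitInterval => u.1
    fun_prop

theorem seg_zero : seg 0 = stdSimplex.map (1 : Fin 2).succAbove o1 := by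
  apply Subtype.ext
  funext i
  have h0 := face_other 0 1 o1 0
  have h1 := face_self 0 1 o1
  rw [show (1 : Fin 2).succAbove 0 = 0 by decide] at h0
  match i with
  | 0 =>
    refine Eq.trans ?_ h0.symm
    show 1 - ((0 : unitInterval) : ℝ) = 1
    simp
  | 1 => exact h1.symm

theorem seg_one : seg 1 = stdSimplex.map (0 : Fin 2).succAbove o1 := by
  apply Subtype.ext
  funext i
  have h0 := face_other 0 0 o1 0
  have h1 := face_self 0 0 o1
  rw [show (0 : Fin 2).succAbove 0 = 1 by decide] at h0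
  match i with
  | 0 =>
    refine Eq.trans ?_ h1.symm
    show 1 - ((1 : unitInterval) : ℝ) = 0
    simp
  | 1 => exact h0.symm

/-- the path of a 1-simplex -/
noncomputable def toPath (σ : Sing E 1) : Path (sface 0 1 σ o1) (sface 0 0 σ o1) where
  toFun u := σ (seg u)
  continuous_toFun := σ.continuous.comp continuous_seg
  source' := by
    show σ (seg 0) = σ (stdSimplex.map (1 : Fin 2).succAbove o1)
    rw [seg_zero]
  target' := by
    show σ (seg 1) = σ (stdSimplex.map (0 : Fin 2).succAbove o1)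
    rw [seg_one]

theorem pS_toPath (σ : Sing E 1) : pS (toPath σ) = σ := by
  ext t
  have hs := sum_two t
  have h0 := t.2.1 0
  have h1 := t.2.1 1
  have hm1 : t.1 1 ∈ Set.Icc (0 : ℝ) 1 := ⟨h1, by linarith⟩
  show toPath σ (pr (t.1 1)) = σ t
  have p1 : pr (t.1 1) = ⟨_, hm1⟩ := Set.projIcc_of_mem _ hm1
  rw [p1]
  show σ (seg ⟨t.1 1, hm1⟩) = σ t
  have : seg ⟨t.1 1, hm1⟩ = t := by
    apply Subtype.ext
    funext i
    match i with
    | 0 =>
      show 1 - t.1 1 = t.1 0
      linarith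
    | 1 => rfl
  rw [this]

end

/-- RB-SC1 -/
theorem main : Pool.Agent.W622.RB.S_sc1 := by
  intro E _ _ z hz
  obtain ⟨x₀⟩ := (inferInstance : PathConnectedSpace E).nonempty
  let g : ∀ x : E, Path x₀ x := fun x => (PathConnectedSpace.joined x₀ x).somePath
  let P : Ch E 0 →ₗ[ℤ] Ch E 1 := Finsupp.lmapDomain ℤ ℤ (fun σ : Sing E 0 => pS (g (σ o1)))
  have hP : ∀ τ : Sing E 0, P (single τ 1) = single (pS (g (τ o1))) 1 := by
    intro τ
    simp [P]
  have key : ((LinearMap.id : Ch E 1 →ₗ[ℤ] Ch E 1) - P.comp (sbd E 0) : Ch E 1 →ₗ[ℤ] Ch E 1) z ∈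
      B E := by
    have hz' : z ∈ supported ℤ ℤ (Set.univ : Set (Sing E 1)) := by simp
    refine supported_map _ _ _ ?_ z hz'
    intro σ _
    have h1 := trans_mem (g (sface 0 1 σ o1)) (toPath σ)
    have h2 : ((g (sface 0 1 σ o1)).trans (toPath σ)).Homotopic (g (sface 0 0 σ o1)) :=
      SimplyConnectedSpace.paths_homotopic _ _
    have h3 := homotopic_mem h2
    rw [pS_toPath] at h1
    have h4 : ((LinearMap.id : Ch E 1 →ₗ[ℤ] Ch E 1) - P.comp (sbd E 0) : Ch E 1 →ₗ[ℤ] Ch E 1)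
        (single σ 1) = single σ 1 - (single (pS (g (sface 0 0 σ o1))) 1 -
          single (pS (g (sface 0 1 σ o1))) 1) := by
      rw [LinearMap.sub_apply, LinearMap.comp_apply, sbd_single, Fin.sum_univ_two, map_add,
        map_smul, map_smul, hP, hP]
      simp [sub_eq_add_neg]
    rw [h4]
    have h5 := Submodule.add_mem _ h1 h3
    convert h5 using 1
    abel
  rw [LinearMap.sub_apply, LinearMap.comp_apply, hz, map_zero, sub_zero] at key
  exact key

end Pool.Agent.W363.RB.SC1
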